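import Pool.Agent.H87.CLG.Targets

/-!
# Relatively free groups with torsion derived subgroup
-/

set_option autoImplicit false

open MvPolynomial
open scoped commutatorElement

namespace Pool.Agent.H7.CLG

open Pool.Agent.H87.CLG

universe u v

private theorem pc_mem {N : Type u} [Group N] (a b : ℕ → N) (k : ℕ) :
    pc a b k ∈ commutator N := by
  unfold pc
  apply Subgroup.list_prod_mem
  intro x hx
  rw [List.mem_map] at hx
  obtain ⟨i, -, rfl⟩ := hx
  exact Subgroup.commutator_mem_commutator (Subgroup.mem_top _) (Subgroup.mem_top _)

private theorem map_pc {N M : Type u} [Group N] [Group M] (ψ : N →* M) (a b : ℕ → N) (k : ℕ) :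
    ψ (pc a b k) = pc (fun i => ψ (a i)) (fun i => ψ (b i)) k := by
  unfold pc
  rw [map_list_prod, List.map_map]
  congr 1
  apply List.map_congr_left
  intro i _
  rw [Function.comp_apply, map_commutatorElement]

theorem pf_REL : T_REL.{u} := by
  classical
  intro G _ X hX hfree htor
  constructor
  · intro hinf k
    have := hinf.to_subtype
    let j : ℕ ↪ X := Infinite.natEmbedding X
    obtain ⟨m, hm, h1⟩ := isOfFinOrder_iff_pow_eq_one.1
      (htor _ (pc_mem (fun i => ((j (2 * i) : X) : G)) (fun i => ((j (2 * i + 1) : X) : G)) k))
    refine ⟨m, hm, ?_⟩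
    intro a b
    obtain ⟨ψ, hψ⟩ := hfree (Function.extend j (fun n => if n % 2 = 0 then a (n / 2) else b (n / 2))
      (fun _ => 1))
    have ha : ∀ i, ψ ((j (2 * i) : X) : G) = a i := by
      intro i
      rw [hψ, j.injective.extend_apply]
      rw [if_pos (by omega)]
      congr 1
      omega
    have hb : ∀ i, ψ ((j (2 * i + 1) : X) : G) = b i := by
      intro i
      rw [hψ, j.injective.extend_apply]
      rw [if_neg (by omega)]
      congr 1
      omega
    have h2 := congrArg ψ h1
    rw [map_pow, map_one, map_pc] at h2
    simp only [ha, hb] at h2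
    exact h2
  · by_cases h : ∃ x ∈ X, ∃ y ∈ X, x ≠ y
    · obtain ⟨x, hx, y, hy, hxy⟩ := h
      obtain ⟨m, hm, h1⟩ := isOfFinOrder_iff_pow_eq_one.1
        (htor _ (Subgroup.commutator_mem_commutator (Subgroup.mem_top x) (Subgroup.mem_top y)))
      refine ⟨m, hm, ?_⟩
      intro a b
      obtain ⟨ψ, hψ⟩ := hfree (fun z => if (z : G) = x then a else b)
      have ha : ψ x = a := by
        have := hψ ⟨x, hx⟩
        rw [if_pos rfl] at this
        exact this
      have hb : ψ y = b := by
        have := hψ ⟨y, hy⟩
        rw [if_neg (fun h => hxy h.symm)] at this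
        exact this
      have h2 := congrArg ψ h1
      rw [map_pow, map_one, map_commutatorElement, ha, hb] at h2
      exact h2
    · push Not at h
      refine ⟨1, le_refl _, ?_⟩
      intro a b
      rw [pow_one, commutatorElement_eq_one_iff_mul_comm]
      have ha : a ∈ Subgroup.closure X := by
        rw [hX]
        exact Subgroup.mem_top _
      have hb : b ∈ Subgroup.closure X := by
        rw [hX]
        exact Subgroup.mem_top _
      rcases X.eq_empty_or_nonempty with h0 | ⟨x, hx⟩
      · rw [h0, Subgroup.closure_empty, Subgroup.mem_bot] at ha hb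
        rw [ha, hb]
      · have h1 : X = {x} := by
          ext y
          rw [Set.mem_singleton_iff]
          constructor
          · intro hy
            exact h y hy x hx
          · intro hy
            rw [hy]
            exact hx
        rw [h1, ← Subgroup.zpowers_eq_closure, Subgroup.mem_zpowers_iff] at ha hb
        obtain ⟨i, rfl⟩ := ha
        obtain ⟨l, rfl⟩ := hb
        rw [← zpow_add, ← zpow_add, add_comm]

end Pool.Agent.H7.CLG
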